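import Mathlib

set_option autoImplicit false

namespace Pool.Agent.L0h92.TR

open Finset

theorem bern (p a k : ℕ) : p ^ k * (p + k * a) ≤ p * (p + a) ^ k := by
  induction k with
  | zero => simp
  | succ k ih =>
    calc p ^ (k+1) * (p + (k+1) * a) = p ^ k * (p * (p + (k+1)*a)) := by ring
      _ ≤ p ^ k * ((p + k * a) * (p + a)) := by
          apply Nat.mul_le_mul_left
          nlinarith [Nat.zero_le (k * a * a)]
      _ = (p ^ k * (p + k*a)) * (p+a) := by ring
      _ ≤ (p * (p+a)^k) * (p + a) := Nat.mul_le_mul_right _ ih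
      _ = p * (p+a)^(k+1) := by ring

theorem two_pow_le (p a k : ℕ) (hk : 1 ≤ k) (h : p ≤ k * a) : p ^ k * 2 ≤ (p + a) ^ k := by
  rcases Nat.eq_zero_or_pos p with rfl | hp
  · rw [zero_pow (by omega)]; simp
  · have h1 := bern p a k
    have h2 : p ^ k * (p + p) ≤ p ^ k * (p + k * a) := Nat.mul_le_mul_left _ (by omega)
    have h3 : p * (p ^ k * 2) ≤ p * (p + a) ^ k := by
      calc p * (p ^ k * 2) = p ^ k * (p + p) := by ring
        _ ≤ _ := h2
        _ ≤ _ := h1
    exact Nat.le_of_mul_le_mul_left h3 hp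

theorem pow_amp (p q L0 m L : ℕ) (hpq : p ≤ q) (h : p ^ L0 * 2 ≤ q ^ L0) (hL : L0 * m ≤ L) :
    p ^ L * 2 ^ m ≤ q ^ L := by
  obtain ⟨r, rfl⟩ := Nat.exists_eq_add_of_le hL
  calc p ^ (L0 * m + r) * 2 ^ m = (p ^ L0 * 2) ^ m * p ^ r := by
        rw [pow_add, pow_mul, mul_pow]; ring
    _ ≤ (q ^ L0) ^ m * q ^ r := Nat.mul_le_mul (Nat.pow_le_pow_left h m) (Nat.pow_le_pow_left hpq r)
    _ = q ^ (L0 * m + r) := by rw [pow_add, pow_mul]

section avoid

variable {α β ι : Type} [Fintype α] [DecidableEq α] [Fintype β] [DecidableEq β]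

theorem card_avoid (T : Finset α) (S : Finset β) :
    (univ.filter (fun g : α → β => ∀ t ∈ T, g t ∉ S)).card
      = (Fintype.card β - S.card) ^ T.card * (Fintype.card β) ^ (Fintype.card α - T.card) := by
  have h1 : (univ.filter (fun g : α → β => ∀ t ∈ T, g t ∉ S))
      = Fintype.piFinset (fun t => if t ∈ T then Sᶜ else (univ : Finset β)) := by
    ext g
    simp only [mem_filter, mem_univ, true_and, Fintype.mem_piFinset]
    constructor
    · intro h t
      by_cases ht : t ∈ T
      · simp [ht, h t ht]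
      · simp [ht]
    · intro h t ht
      have := h t
      simpa [ht] using this
  rw [h1, Fintype.card_piFinset]
  have h2 : ∀ t : α, (if t ∈ T then Sᶜ else (univ : Finset β)).card
      = if t ∈ T then (Fintype.card β - S.card) else Fintype.card β := by
    intro t
    by_cases ht : t ∈ T
    · simp [ht, card_compl]
    · simp [ht]
  rw [prod_congr rfl (fun t _ => h2 t), prod_ite, prod_const, prod_const]
  congr 2
  · congr 1; ext t; simp
  · have : (univ.filter (fun t => t ∉ T)) = Tᶜ := by ext t; simp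
    rw [this, card_compl]

theorem exists_avoid [Nonempty β] (E : Finset ι) (T : ι → Finset α) (S : ι → Finset β) (M : ℕ)
    (hM : E.card < M)
    (h : ∀ e ∈ E, (Fintype.card β - (S e).card) ^ (T e).card * M ≤ (Fintype.card β) ^ (T e).card) :
    ∃ g : α → β, ∀ e ∈ E, ∃ t ∈ T e, g t ∈ S e := by
  classical
  by_contra hcon
  push Not at hcon
  have h1 : (univ : Finset (α → β)) ⊆ E.biUnion (fun e => univ.filter (fun g : α → β => ∀ t ∈ T e, g t ∉ S e)) := by
    intro g _
    obtain ⟨e, he, hg⟩ := hcon g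
    simp only [mem_biUnion, mem_filter, mem_univ, true_and]
    exact ⟨e, he, hg⟩
  have h2 := card_le_card h1
  have h3 := h2.trans card_biUnion_le
  have hB : 0 < Fintype.card β := Fintype.card_pos
  have hcard : (univ : Finset (α → β)).card = (Fintype.card β) ^ (Fintype.card α) := by
    rw [card_univ, Fintype.card_fun]
  rw [hcard] at h3
  have h4 : ∀ e ∈ E, (univ.filter (fun g : α → β => ∀ t ∈ T e, g t ∉ S e)).card * M
      ≤ (Fintype.card β) ^ (Fintype.card α) := by
    intro e he
    rw [card_avoid]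
    have hT : (T e).card ≤ Fintype.card α := card_le_univ _
    calc (Fintype.card β - (S e).card) ^ (T e).card * (Fintype.card β) ^ (Fintype.card α - (T e).card) * M
        = ((Fintype.card β - (S e).card) ^ (T e).card * M) * (Fintype.card β) ^ (Fintype.card α - (T e).card) := by ring
      _ ≤ (Fintype.card β) ^ (T e).card * (Fintype.card β) ^ (Fintype.card α - (T e).card) :=
          Nat.mul_le_mul_right _ (h e he)
      _ = (Fintype.card β) ^ (Fintype.card α) := by
          rw [← pow_add]; congr 1; omega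
  have h5 : (Fintype.card β) ^ (Fintype.card α) * M ≤ E.card * (Fintype.card β) ^ (Fintype.card α) := by
    calc (Fintype.card β) ^ (Fintype.card α) * M
        ≤ (∑ e ∈ E, (univ.filter (fun g : α → β => ∀ t ∈ T e, g t ∉ S e)).card) * M := Nat.mul_le_mul_right _ h3
      _ = ∑ e ∈ E, (univ.filter (fun g : α → β => ∀ t ∈ T e, g t ∉ S e)).card * M := by rw [sum_mul]
      _ ≤ ∑ e ∈ E, (Fintype.card β) ^ (Fintype.card α) := sum_le_sum h4
      _ = _ := by rw [sum_const, smul_eq_mul]
  have h6 : 0 < (Fintype.card β) ^ (Fintype.card α) := Nat.pow_pos hB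
  have h7 : E.card * (Fintype.card β) ^ (Fintype.card α) < M * (Fintype.card β) ^ (Fintype.card α) :=
    Nat.mul_lt_mul_of_pos_right hM h6
  rw [mul_comm] at h5
  omega

end avoid

theorem exists_gadget (b D J : ℕ) (hJ : (D+1) * (2*b+D+1) ≤ 2 ^ J) :
    ∃ f : (Fin b → Bool) → Option (Fin D), ∀ U : Finset (Fin b), J ≤ U.card →
      ∀ ρ : Fin b → Bool, ∀ c : Option (Fin D), ∃ y : Fin b → Bool, (∀ i, i ∉ U → y i = ρ i) ∧ f y = c := by
  classical
  let T : (Finset (Fin b) × (Fin b → Bool) × Option (Fin D)) → Finset (Fin b → Bool) :=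
    fun e => Fintype.piFinset (fun i => if i ∈ e.1 then (univ : Finset Bool) else {e.2.1 i})
  have hT : ∀ e, (T e).card = 2 ^ e.1.card := by
    intro e
    simp only [T]
    rw [Fintype.card_piFinset]
    have h2 : ∀ i : Fin b, (if i ∈ e.1 then (univ : Finset Bool) else {e.2.1 i}).card
        = if i ∈ e.1 then 2 else 1 := by
      intro i
      by_cases hi : i ∈ e.1
      · simp [hi]
      · simp [hi]
    rw [prod_congr rfl (fun i _ => h2 i), prod_ite, prod_const, prod_const, one_pow, mul_one]
    congr 2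
    ext t; simp
  obtain ⟨f, hf⟩ := exists_avoid (α := Fin b → Bool) (β := Option (Fin D))
    (univ.filter (fun e : Finset (Fin b) × (Fin b → Bool) × Option (Fin D) => J ≤ e.1.card))
    T (fun e => {e.2.2}) (2 ^ (2*b+D+1)) (by
      calc (univ.filter (fun e : Finset (Fin b) × (Fin b → Bool) × Option (Fin D) => J ≤ e.1.card)).card
          ≤ (univ : Finset (Finset (Fin b) × (Fin b → Bool) × Option (Fin D))).card := card_le_card (filter_subset _ _)
        _ = 2 ^ b * (2 ^ b * (D + 1)) := by
            rw [card_univ, Fintype.card_prod, Fintype.card_prod]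
            simp
        _ = 2 ^ (2 * b) * (D + 1) := by rw [two_mul, pow_add]; ring
        _ < 2 ^ (2 * b) * 2 ^ (D + 1) := Nat.mul_lt_mul_of_pos_left Nat.lt_two_pow_self (by positivity)
        _ = 2 ^ (2*b+D+1) := by rw [← pow_add]; congr 1) (by
      intro e he
      simp only [mem_filter, mem_univ, true_and] at he
      simp only [Fintype.card_option, Fintype.card_fin, card_singleton, Nat.add_sub_cancel]
      apply pow_amp D (D+1) (D+1) (2*b+D+1) _ (by omega)
      · exact two_pow_le D 1 (D+1) (by omega) (by omega)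
      · rw [hT]
        exact hJ.trans (Nat.pow_le_pow_right (by norm_num) he))
  refine ⟨f, ?_⟩
  intro U hU ρ c
  obtain ⟨y, hy, hfy⟩ := hf (U, ρ, c) (by simp [hU])
  refine ⟨y, ?_, by simpa using hfy⟩
  intro i hi
  simp only [T, Fintype.mem_piFinset] at hy
  have := hy i
  simpa [hi] using this

theorem exists_graph (N k a : ℕ) (hk : 1 ≤ k) (ha : 1 ≤ a) (h1 : N ≤ k * a) (hN : 1 ≤ N) :
    ∃ p : Fin N → Fin (k * (2*k+1)) → Fin N, ∀ X Y : Finset (Fin N), a ≤ X.card → a ≤ Y.card →
      ∃ v ∈ X, ∃ w ∈ Y, ∃ i, p v i = w := by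
  classical
  haveI : Nonempty (Fin N) := ⟨⟨0, hN⟩⟩
  obtain ⟨g, hg⟩ := exists_avoid (α := Fin N × Fin (k * (2*k+1))) (β := Fin N)
    (univ.filter (fun e : Finset (Fin N) × Finset (Fin N) => a ≤ e.1.card ∧ a ≤ e.2.card))
    (fun e => e.1 ×ˢ univ) (fun e => e.2) (2 ^ (2*N+1)) (by
      calc (univ.filter (fun e : Finset (Fin N) × Finset (Fin N) => a ≤ e.1.card ∧ a ≤ e.2.card)).card
          ≤ (univ : Finset (Finset (Fin N) × Finset (Fin N))).card := card_le_card (filter_subset _ _)
        _ = 2 ^ N * 2 ^ N := by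
            rw [card_univ, Fintype.card_prod]
            simp
        _ = 2 ^ (2 * N) := by rw [two_mul, pow_add]
        _ < 2 ^ (2*N+1) := Nat.pow_lt_pow_right (by norm_num) (by omega)) (by
      intro e he
      simp only [mem_filter, mem_univ, true_and] at he
      rw [Fintype.card_fin, card_product, card_univ, Fintype.card_fin]
      have hY : e.2.card ≤ N := by
        have := card_le_univ e.2
        simpa using this
      apply pow_amp (N - e.2.card) N k (2*N+1) _ (by omega)
      · have h2 := two_pow_le (N - e.2.card) e.2.card k hk (by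
          have : k * a ≤ k * e.2.card := Nat.mul_le_mul_left _ he.2
          omega)
        rwa [Nat.sub_add_cancel hY] at h2
      · have h3 : a * (k * (2*k+1)) ≤ e.1.card * (k * (2*k+1)) := Nat.mul_le_mul_right _ he.1
        refine le_trans ?_ h3
        have h4 : k * (2*N+1) ≤ k * (a * (2*k+1)) := by
          apply Nat.mul_le_mul_left
          nlinarith
        calc k * (2*N+1) ≤ k * (a * (2*k+1)) := h4
          _ = a * (k * (2*k+1)) := by ring)
  refine ⟨fun v i => g (v, i), ?_⟩
  intro X Y hX hY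
  obtain ⟨t, ht, hgt⟩ := hg (X, Y) (by simp [hX, hY])
  simp only [mem_product, mem_univ, and_true] at ht
  exact ⟨t.1, ht, g t, hgt, t.2, rfl⟩

end Pool.Agent.L0h92.TR
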