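import Mathlib

set_option autoImplicit false

namespace Pool.Agent.L0h92.TR

open Finset

section game

variable {V : Type} [Fintype V] [DecidableEq V]

/-- `X` is a subset of `L` with no edge leaving it inside `L`. -/
def Closed (R : V → V → Prop) (L X : Finset V) : Prop :=
  X ⊆ L ∧ ∀ v ∈ X, ∀ w ∈ L, R v w → w ∈ X

def Expand (R : V → V → Prop) (a : ℕ) : Prop :=
  ∀ X Y : Finset V, a ≤ X.card → a ≤ Y.card → ∃ v ∈ X, ∃ w ∈ Y, R v w

def Robust (R : V → V → Prop) (a : ℕ) (L : Finset V) : Prop :=
  ∀ X, Closed R L X → X.Nonempty → a ≤ X.card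

theorem closed_small_or {R : V → V → Prop} {a : ℕ} (hE : Expand R a) {L X : Finset V}
    (hX : Closed R L X) : X.card < a ∨ (L \ X).card < a := by
  by_contra hcon
  push Not at hcon
  obtain ⟨v, hv, w, hw, hR⟩ := hE X (L \ X) hcon.1 hcon.2
  rw [mem_sdiff] at hw
  exact hw.2 (hX.2 v hv w hw.1 hR)

theorem closed_union {R : V → V → Prop} {L X Y : Finset V} (hX : Closed R L X) (hY : Closed R L Y) :
    Closed R L (X ∪ Y) := by
  refine ⟨union_subset hX.1 hY.1, ?_⟩
  intro v hv w hw hR
  rw [mem_union] at hv ⊢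
  rcases hv with hv | hv
  · exact Or.inl (hX.2 v hv w hw hR)
  · exact Or.inr (hY.2 v hv w hw hR)

theorem union_small {R : V → V → Prop} {a : ℕ} (hE : Expand R a) {L X Y : Finset V}
    (hL : 3 * a ≤ L.card) (hX : Closed R L X) (hY : Closed R L Y) (hXa : X.card < a)
    (hYa : Y.card < a) : (X ∪ Y).card < a := by
  rcases closed_small_or hE (closed_union hX hY) with h | h
  · exact h
  · exfalso
    have h1 : (X ∪ Y).card ≤ X.card + Y.card := card_union_le _ _
    have h2 : L.card ≤ (L \ (X ∪ Y)).card + (X ∪ Y).card := card_le_card_sdiff_add_card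
    omega

theorem exists_U {R : V → V → Prop} {a : ℕ} (hE : Expand R a) (ha : 1 ≤ a) (L : Finset V)
    (hL : 3 * a ≤ L.card) :
    ∃ U, Closed R L U ∧ U.card < a ∧ Robust R a (L \ U) := by
  classical
  let Fam := L.powerset.filter (fun X => Closed R L X ∧ X.card < a)
  have hne : Fam.Nonempty := by
    refine ⟨∅, ?_⟩
    simp only [Fam, mem_filter, mem_powerset, empty_subset, true_and, card_empty]
    exact ⟨⟨empty_subset _, by simp⟩, ha⟩
  obtain ⟨U, hU, hmax⟩ := exists_max_image Fam (fun X => X.card) hne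
  simp only [Fam, mem_filter, mem_powerset] at hU
  refine ⟨U, hU.2.1, hU.2.2, ?_⟩
  intro X hX hXne
  by_contra hXa
  push Not at hXa
  have hXL : X ⊆ L := hX.1.trans sdiff_subset
  have hcl : Closed R L (X ∪ U) := by
    refine ⟨union_subset hXL hU.1, ?_⟩
    intro v hv w hw hR
    rw [mem_union] at hv ⊢
    rcases hv with hv | hv
    · by_cases hwU : w ∈ U
      · exact Or.inr hwU
      · exact Or.inl (hX.2 v hv w (mem_sdiff.2 ⟨hw, hwU⟩) hR)
    · exact Or.inr (hU.2.1.2 v hv w hw hR)
  have hsm : (X ∪ U).card < a := by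
    rcases closed_small_or hE hcl with h | h
    · exact h
    · exfalso
      have h1 : (X ∪ U).card ≤ X.card + U.card := card_union_le _ _
      have h2 : L.card ≤ (L \ (X ∪ U)).card + (X ∪ U).card := card_le_card_sdiff_add_card
      omega
  have hm := hmax (X ∪ U) (by
    simp only [Fam, mem_filter, mem_powerset]
    exact ⟨hcl.1, hcl, hsm⟩)
  have hdis : Disjoint X U := by
    rw [Finset.disjoint_left]
    intro x hx hxU
    exact (mem_sdiff.1 (hX.1 hx)).2 hxU
  rw [card_union_of_disjoint hdis] at hm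
  have := hXne.card_pos
  omega

/-- existence of a safe out-neighbour -/
theorem exists_out {R : V → V → Prop} {a : ℕ} (hE : Expand R a) {L U : Finset V} {z : V}
    (hL : 3 * a ≤ L.card) (ha : 1 ≤ a) (hrob : Robust R a L) (hz : z ∈ L)
    (hU : Closed R (L.erase z) U) (hUa : U.card < a) :
    ∃ w ∈ (L.erase z) \ U, R z w := by
  by_contra hcon
  push Not at hcon
  have hcl : Closed R L (insert z U) := by
    refine ⟨?_, ?_⟩
    · intro x hx
      rw [mem_insert] at hx
      rcases hx with rfl | hx
      · exact hz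
      · exact mem_of_mem_erase (hU.1 hx)
    · intro v hv w hw hR
      rw [mem_insert] at hv ⊢
      by_cases hwz : w = z
      · exact Or.inl hwz
      · right
        have hwL : w ∈ L.erase z := mem_erase.2 ⟨hwz, hw⟩
        rcases hv with rfl | hv
        · by_contra hwU
          exact hcon w (mem_sdiff.2 ⟨hwL, hwU⟩) hR
        · exact hU.2 v hv w hwL hR
  have h1 : (insert z U).card ≤ U.card + 1 := card_insert_le _ _
  rcases closed_small_or hE hcl with h | h
  · have := hrob _ hcl ⟨z, mem_insert_self _ _⟩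
    omega
  · have h2 : L.card ≤ (L \ (insert z U)).card + (insert z U).card := card_le_card_sdiff_add_card
    omega

/-- `Rk d v`: there is a walk of length `d` from `v` to `z` all of whose vertices except `z` are in `U`. -/
inductive Rk (R : V → V → Prop) (U : Finset V) (z : V) : ℕ → V → Prop
  | zero : Rk R U z 0 z
  | succ {v w : V} {d : ℕ} : v ∈ U → R v w → Rk R U z d w → Rk R U z (d+1) v

theorem exists_rank {R : V → V → Prop} {a : ℕ} {L U : Finset V} {z t : V}
    (hrob : Robust R a L) (hU : Closed R (L.erase z) U) (hUa : U.card < a)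
    (ht : t ∈ U) : ∃ d, Rk R U z d t := by
  classical
  by_contra hcon
  push Not at hcon
  let C := U.filter (fun v => ∀ d, ¬ Rk R U z d v)
  have hCt : t ∈ C := by
    simp only [C, mem_filter]
    exact ⟨ht, hcon⟩
  have hcl : Closed R L C := by
    refine ⟨?_, ?_⟩
    · intro x hx
      exact mem_of_mem_erase (hU.1 (mem_filter.1 hx).1)
    · intro v hv w hw hR
      simp only [C, mem_filter] at hv ⊢
      have hnw : ∀ d, ¬ Rk R U z d w := by
        intro d hd
        exact hv.2 (d+1) (Rk.succ hv.1 hR hd)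
      have hwz : w ≠ z := by
        rintro rfl
        exact hnw 0 Rk.zero
      exact ⟨hU.2 v hv.1 w (mem_erase.2 ⟨hwz, hw⟩) hR, hnw⟩
  have h1 := hrob C hcl ⟨t, hCt⟩
  have h2 : C.card ≤ U.card := card_le_card (filter_subset _ _)
  omega

end game

end Pool.Agent.L0h92.TR
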