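import Mathlib
import Pool.Agent.L0h92.TR.Game

set_option autoImplicit false

namespace Pool.Agent.L0h92.TR

open Finset

section state

variable {V X : Type} [Fintype V] [DecidableEq V] [Fintype X] [DecidableEq X]
variable {b : ℕ} (J : ℕ) (e : V × Fin b → X) (R : V → V → Prop)
variable (val : V → (Fin b → Bool) → Option V) (s0 : V)

/-- the content of block `v` -/
def blk (ρ : X → Bool) (v : V) : Fin b → Bool := fun i => ρ (e (v, i))

/-- the bits of block `v` that are not fixed -/
def unf (Fx : Finset X) (v : V) : Finset (Fin b) := univ.filter (fun i => e (v, i) ∉ Fx)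

/-- `val` can be completed to any legal value as long as `J` bits are free. -/
def Ext : Prop :=
  ∀ v : V, ∀ U : Finset (Fin b), J ≤ U.card → ∀ ρ : Fin b → Bool, ∀ o : Option V,
    (∀ w, o = some w → R v w) → ∃ y : Fin b → Bool, (∀ i, i ∉ U → y i = ρ i) ∧ val v y = o

structure Inv (Fx : Finset X) (ρ : X → Bool) (A : Finset V) (t : V) : Prop where
  left : ∀ x, (∀ p, e p ≠ x) → x ∈ Fx
  com : ∀ v, v ∉ A → ∀ i, e (v, i) ∈ Fx
  act : ∀ v ∈ A, J ≤ (unf e Fx v).card
  tA : t ∈ A
  i1 : ∀ u, u ∉ A → ∀ w, val u (blk e ρ u) = some w → w = t ∨ (w ∉ A ∧ val w (blk e ρ w) ≠ none)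
  i2 : ∀ u v, u ∉ A → v ∉ A → ∀ w, val u (blk e ρ u) = some w → val v (blk e ρ v) = some w → u = v
  i3 : ∀ u, u ∉ A → val u (blk e ρ u) ≠ some s0
  i4 : s0 = t ∨ (s0 ∉ A ∧ val s0 (blk e ρ s0) ≠ none)

variable {J e R val s0}

/-- Fixing a whole active block. -/
theorem setBlock (he : Function.Injective e) (hExt : Ext J R val) {Fx : Finset X} {ρ : X → Bool}
    {A : Finset V} {t : V} (hI : Inv J e val s0 Fx ρ A t) {v : V} (hv : v ∈ A) (o : Option V)
    (ho : ∀ w, o = some w → R v w) :
    ∃ (Fx' : Finset X) (ρ' : X → Bool), Fx ⊆ Fx' ∧ (∀ x ∈ Fx, ρ' x = ρ x) ∧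
      (∀ i, e (v, i) ∈ Fx') ∧ val v (blk e ρ' v) = o ∧
      (∀ u, u ≠ v → blk e ρ' u = blk e ρ u) ∧ (∀ u, u ≠ v → unf e Fx' u = unf e Fx u) := by
  classical
  obtain ⟨y, hy1, hy2⟩ := hExt v (unf e Fx v) (hI.act v hv) (blk e ρ v) o ho
  refine ⟨Fx ∪ univ.image (fun i => e (v, i)),
    fun x => if h : ∃ i, e (v, i) = x then y h.choose else ρ x, subset_union_left, ?_, ?_, ?_, ?_, ?_⟩
  · intro x hx
    by_cases h : ∃ i, e (v, i) = x
    · simp only [h, dif_pos]
      have hc := h.choose_spec
      have h1 : h.choose ∉ unf e Fx v := by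
        simp only [unf, mem_filter, mem_univ, true_and, not_not]
        rw [hc]; exact hx
      have h2 := hy1 _ h1
      rw [h2]
      simp only [blk]
      rw [hc]
    · simp only [h, dif_neg, not_false_iff]
  · intro i
    exact mem_union_right _ (mem_image_of_mem _ (mem_univ i))
  · have : blk e (fun x => if h : ∃ i, e (v, i) = x then y h.choose else ρ x) v = y := by
      funext i
      have h : ∃ j, e (v, j) = e (v, i) := ⟨i, rfl⟩
      simp only [blk, h, dif_pos]
      have hc := h.choose_spec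
      have := he hc
      rw [Prod.mk.injEq] at this
      rw [this.2]
    rw [this]; exact hy2
  · intro u hu
    funext i
    have h : ¬ ∃ j, e (v, j) = e (u, i) := by
      rintro ⟨j, hj⟩
      have := he hj
      rw [Prod.mk.injEq] at this
      exact hu this.1.symm
    simp only [blk, h, dif_neg, not_false_iff]
  · intro u hu
    ext i
    simp only [unf, mem_filter, mem_univ, true_and, mem_union, mem_image, not_or, not_exists]
    constructor
    · intro h; exact h.1
    · intro h
      refine ⟨h, ?_⟩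
      intro j hj
      have := he hj
      rw [Prod.mk.injEq] at this
      exact hu this.1.symm

/-- Give the empty value to an active block that is not the token. -/
theorem kill (he : Function.Injective e) (hExt : Ext J R val) {Fx : Finset X} {ρ : X → Bool}
    {A : Finset V} {t : V} (hI : Inv J e val s0 Fx ρ A t) {z : V} (hz : z ∈ A) (hzt : z ≠ t) :
    ∃ (Fx' : Finset X) (ρ' : X → Bool), Fx ⊆ Fx' ∧ (∀ x ∈ Fx, ρ' x = ρ x) ∧
      (∀ i, e (z, i) ∈ Fx') ∧ Inv J e val s0 Fx' ρ' (A.erase z) t ∧
      (∀ u, u ≠ z → unf e Fx' u = unf e Fx u) := by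
  obtain ⟨Fx', ρ', h1, h2, h3, h4, h5, h6⟩ := setBlock he hExt hI hz none (by simp)
  refine ⟨Fx', ρ', h1, h2, h3, ?_, h6⟩
  refine ⟨?_, ?_, ?_, ?_, ?_, ?_, ?_, ?_⟩
  · intro x hx; exact h1 (hI.left x hx)
  · intro v hv i
    by_cases hvz : v = z
    · subst hvz; exact h3 i
    · exact h1 (hI.com v (fun hA => hv (mem_erase.2 ⟨hvz, hA⟩)) i)
  · intro v hv
    rw [mem_erase] at hv
    rw [h6 v hv.1]
    exact hI.act v hv.2
  · exact mem_erase.2 ⟨hzt.symm, hI.tA⟩
  · intro u hu w hw
    by_cases huz : u = z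
    · subst huz
      rw [h4] at hw
      exact absurd hw (by simp)
    · have huA : u ∉ A := fun hA => hu (mem_erase.2 ⟨huz, hA⟩)
      rw [h5 u huz] at hw
      rcases hI.i1 u huA w hw with h | ⟨h, h'⟩
      · exact Or.inl h
      · right
        have hwz : w ≠ z := by rintro rfl; exact h hz
        refine ⟨fun hm => h (mem_of_mem_erase hm), ?_⟩
        rw [h5 w hwz]; exact h'
  · intro u v hu hv w hw hw'
    by_cases huz : u = z
    · subst huz
      rw [h4] at hw
      exact absurd hw (by simp)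
    · by_cases hvz : v = z
      · subst hvz
        rw [h4] at hw'
        exact absurd hw' (by simp)
      · rw [h5 u huz] at hw
        rw [h5 v hvz] at hw'
        exact hI.i2 u v (fun hA => hu (mem_erase.2 ⟨huz, hA⟩)) (fun hA => hv (mem_erase.2 ⟨hvz, hA⟩)) w hw hw'
  · intro u hu
    by_cases huz : u = z
    · subst huz
      rw [h4]; simp
    · rw [h5 u huz]
      exact hI.i3 u (fun hA => hu (mem_erase.2 ⟨huz, hA⟩))
  · rcases hI.i4 with h | ⟨h, h'⟩
    · exact Or.inl h
    · right
      have hsz : s0 ≠ z := by rintro rfl; exact h hz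
      refine ⟨fun hm => h (mem_of_mem_erase hm), ?_⟩
      rw [h5 s0 hsz]; exact h'

/-- Commit the token `t` to a pointer to the active block `w`, which becomes the token. -/
theorem commit (he : Function.Injective e) (hExt : Ext J R val) {Fx : Finset X} {ρ : X → Bool}
    {A : Finset V} {t : V} (hI : Inv J e val s0 Fx ρ A t) {w : V} (hw : w ∈ A) (hwt : w ≠ t)
    (hR : R t w) :
    ∃ (Fx' : Finset X) (ρ' : X → Bool), Fx ⊆ Fx' ∧ (∀ x ∈ Fx, ρ' x = ρ x) ∧
      (∀ i, e (t, i) ∈ Fx') ∧ Inv J e val s0 Fx' ρ' (A.erase t) w ∧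
      (∀ u, u ≠ t → unf e Fx' u = unf e Fx u) := by
  obtain ⟨Fx', ρ', h1, h2, h3, h4, h5, h6⟩ := setBlock he hExt hI hI.tA (some w) (by
    intro w' hw'; rw [Option.some.injEq] at hw'; subst hw'; exact hR)
  refine ⟨Fx', ρ', h1, h2, h3, ?_, h6⟩
  -- the old targets are different from `w`
  have key : ∀ u, u ∉ A → val u (blk e ρ u) ≠ some w := by
    intro u hu hc
    rcases hI.i1 u hu w hc with h | ⟨h, _⟩
    · exact hwt h
    · exact h hw
  refine ⟨?_, ?_, ?_, ?_, ?_, ?_, ?_, ?_⟩
  · intro x hx; exact h1 (hI.left x hx)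
  · intro v hv i
    by_cases hvz : v = t
    · subst hvz; exact h3 i
    · exact h1 (hI.com v (fun hA => hv (mem_erase.2 ⟨hvz, hA⟩)) i)
  · intro v hv
    rw [mem_erase] at hv
    rw [h6 v hv.1]
    exact hI.act v hv.2
  · exact mem_erase.2 ⟨hwt, hw⟩
  · intro u hu w' hw'
    by_cases hut : u = t
    · subst hut
      rw [h4, Option.some.injEq] at hw'
      exact Or.inl hw'.symm
    · have huA : u ∉ A := fun hA => hu (mem_erase.2 ⟨hut, hA⟩)
      rw [h5 u hut] at hw'
      rcases hI.i1 u huA w' hw' with h | ⟨h, h'⟩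
      · right
        subst h
        refine ⟨by simp, ?_⟩
        rw [h4]; simp
      · right
        have hwz : w' ≠ t := by rintro rfl; exact h hI.tA
        refine ⟨fun hm => h (mem_of_mem_erase hm), ?_⟩
        rw [h5 w' hwz]; exact h'
  · intro u v hu hv w' hw1 hw2
    by_cases hut : u = t
    · by_cases hvt : v = t
      · rw [hut, hvt]
      · subst hut
        rw [h4, Option.some.injEq] at hw1
        subst hw1
        rw [h5 v hvt] at hw2
        exact absurd hw2 (key v (fun hA => hv (mem_erase.2 ⟨hvt, hA⟩)))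
    · by_cases hvt : v = t
      · subst hvt
        rw [h4, Option.some.injEq] at hw2
        subst hw2
        rw [h5 u hut] at hw1
        exact absurd hw1 (key u (fun hA => hu (mem_erase.2 ⟨hut, hA⟩)))
      · rw [h5 u hut] at hw1
        rw [h5 v hvt] at hw2
        exact hI.i2 u v (fun hA => hu (mem_erase.2 ⟨hut, hA⟩)) (fun hA => hv (mem_erase.2 ⟨hvt, hA⟩)) w' hw1 hw2
  · intro u hu
    by_cases hut : u = t
    · subst hut
      rw [h4]
      intro hc
      rw [Option.some.injEq] at hc
      subst hc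
      rcases hI.i4 with h | ⟨h, _⟩
      · exact hwt h
      · exact h hw
    · rw [h5 u hut]
      exact hI.i3 u (fun hA => hu (mem_erase.2 ⟨hut, hA⟩))
  · right
    by_cases hst : s0 = t
    · subst hst
      refine ⟨by simp, ?_⟩
      rw [h4]; simp
    · rcases hI.i4 with h | ⟨h, h'⟩
      · exact absurd h hst
      · refine ⟨fun hm => h (mem_of_mem_erase hm), ?_⟩
        rw [h5 s0 hst]; exact h'

/-- Commit a path from the token to `z` through `U`. -/
theorem commitPath (he : Function.Injective e) (hExt : Ext J R val) {U : Finset V} {z : V} (d : ℕ) :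
    ∀ {Fx : Finset X} {ρ : X → Bool} {A : Finset V} {t : V}, Inv J e val s0 Fx ρ A t →
      Rk R U z d t → (∀ d' < d, ¬ Rk R U z d' t) →
      (∀ u, ∀ d' ≤ d, Rk R U z d' u → u ∈ A) →
      ∃ (Fx' : Finset X) (ρ' : X → Bool) (Q : Finset V), Q ⊆ U ∧ Q ⊆ A ∧ z ∉ Q ∧
        Fx ⊆ Fx' ∧ (∀ x ∈ Fx, ρ' x = ρ x) ∧ Inv J e val s0 Fx' ρ' (A \ Q) z ∧
        (∀ u ∈ A \ Q, unf e Fx' u = unf e Fx u) := by
  induction d with
  | zero =>
    intro Fx ρ A t hI hRk _ _
    cases hRk
    exact ⟨Fx, ρ, ∅, by simp, by simp, by simp, Subset.refl _, fun _ _ => rfl, by simpa using hI,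
      fun _ _ => rfl⟩
  | succ d ih =>
    intro Fx ρ A t hI hRk hmin hA
    cases hRk with
    | @succ _ w _ htU hR hw =>
      have hwA : w ∈ A := hA w d (by omega) hw
      have hwt : w ≠ t := by
        rintro rfl
        exact hmin d (by omega) hw
      obtain ⟨Fx1, ρ1, h1, h2, h3, h4, h5⟩ := commit he hExt hI hwA hwt hR
      have hminw : ∀ d' < d, ¬ Rk R U z d' w := by
        intro d' hd' hc
        exact hmin (d'+1) (by omega) (Rk.succ htU hR hc)
      have hA' : ∀ u, ∀ d' ≤ d, Rk R U z d' u → u ∈ A.erase t := by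
        intro u d' hd' hc
        refine mem_erase.2 ⟨?_, hA u d' (by omega) hc⟩
        rintro rfl
        exact hmin d' (by omega) hc
      obtain ⟨Fx2, ρ2, Q, g1, g2, g3, g4, g5, g6, g7⟩ := ih h4 hw hminw hA'
      have hset : A.erase t \ Q = A \ insert t Q := by
        ext x; simp only [mem_sdiff, mem_erase, mem_insert, not_or]; tauto
      have htz : z ≠ t := by
        rintro rfl
        exact hmin 0 (by omega) Rk.zero
      refine ⟨Fx2, ρ2, insert t Q, ?_, ?_, ?_, h1.trans g4, ?_, ?_, ?_⟩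
      · intro x hx
        rw [mem_insert] at hx
        rcases hx with rfl | hx
        · exact htU
        · exact g1 hx
      · intro x hx
        rw [mem_insert] at hx
        rcases hx with rfl | hx
        · exact hI.tA
        · exact mem_of_mem_erase (g2 hx)
      · rw [mem_insert, not_or]
        exact ⟨htz, g3⟩
      · intro x hx
        rw [g5 x (h1 hx), h2 x hx]
      · rw [← hset]; exact g6
      · intro u hu
        rw [← hset] at hu
        rw [g7 u hu]
        apply h5
        rw [mem_sdiff, mem_erase] at hu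
        exact hu.1.1

end state

end Pool.Agent.L0h92.TR
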