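import Mathlib
import Pool.Agent.L0h92.TR.State

set_option autoImplicit false

namespace Pool.Agent.L0h92.TR

open Finset

section touch

variable {V X : Type} [Fintype V] [DecidableEq V] [Fintype X] [DecidableEq X]
variable {b : ℕ} (J a : ℕ) (e : V × Fin b → X) (R : V → V → Prop)
variable (val : V → (Fin b → Bool) → Option V) (s0 : V)

structure Valid (Fx : Finset X) (ρ : X → Bool) (A D P : Finset V) (t : V) : Prop where
  inv : Inv J e val s0 Fx ρ A t
  DA : D ⊆ A
  PA : Disjoint P A
  tD : t ∉ D
  rob : Robust R a (A \ D)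
  noed : ∀ v ∈ D ∪ P, ∀ w ∈ A \ D, ¬ R v w
  small : (D ∪ P).card < a

/-- the potential -/
def pot (Fx : Finset X) (A P : Finset V) : ℕ := (∑ v ∈ A, ((unf e Fx v).card - J)) + P.card * b

variable {J a e R val s0}

theorem unf_card_le (Fx : Finset X) (v : V) : (unf e Fx v).card ≤ b := by
  have := card_le_univ (unf e Fx v)
  simpa using this

theorem touch (he : Function.Injective e) (hExt : Ext J R val) (hE : Expand R a) (ha : 1 ≤ a)
    {Fx : Finset X} {ρ : X → Bool} {A D P : Finset V} {t : V}
    (hV : Valid J a e R val s0 Fx ρ A D P t) (hA : 10 * a ≤ A.card) {z : V} (hz : z ∈ A)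
    (hzJ : (unf e Fx z).card = J) :
    ∃ (Fx' : Finset X) (ρ' : X → Bool) (A' D' P' : Finset V) (t' : V),
      Fx ⊆ Fx' ∧ (∀ x ∈ Fx, ρ' x = ρ x) ∧ (∀ i, e (z, i) ∈ Fx') ∧
      Valid J a e R val s0 Fx' ρ' A' D' P' t' ∧ pot J e Fx A P ≤ pot J e Fx' A' P' := by
  classical
  have hDcard : D.card < a := lt_of_le_of_lt (card_le_card subset_union_left) hV.small
  have hLcard : 9 * a ≤ (A \ D).card := by
    have h2 : A.card ≤ (A \ D).card + D.card := card_le_card_sdiff_add_card
    omega
  -- the potential when `z` is removed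
  have potz : ∀ Fx' : Finset X, (∀ u, u ≠ z → unf e Fx' u = unf e Fx u) →
      pot J e Fx A P = pot J e Fx' (A.erase z) P := by
    intro Fx' hF
    unfold pot
    congr 1
    rw [← sum_erase_add _ _ hz, hzJ, Nat.sub_self, add_zero]
    apply sum_congr rfl
    intro u hu
    rw [hF u (ne_of_mem_erase hu)]
  by_cases hzD : z ∈ D
  · -- kill a dead block
    have hzt : z ≠ t := by rintro rfl; exact hV.tD hzD
    obtain ⟨Fx', ρ', h1, h2, h3, h4, h5⟩ := kill he hExt hV.inv hz hzt
    have hset : A.erase z \ D.erase z = A \ D := by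
      ext x; simp only [mem_sdiff, mem_erase, not_and_or, not_not]
      constructor
      · rintro ⟨⟨hx1, hx2⟩, hx3⟩
        refine ⟨hx2, ?_⟩
        rcases hx3 with h | h
        · exact absurd h hx1
        · exact h
      · rintro ⟨hx1, hx2⟩
        refine ⟨⟨?_, hx1⟩, Or.inr hx2⟩
        rintro rfl; exact hx2 hzD
    refine ⟨Fx', ρ', A.erase z, D.erase z, P, t, h1, h2, h3, ?_, ?_⟩
    · refine ⟨h4, erase_subset_erase _ hV.DA, ?_, ?_, ?_, ?_, ?_⟩
      · exact hV.PA.mono_right (erase_subset _ _)
      · intro h; exact hV.tD (mem_of_mem_erase h)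
      · rw [hset]; exact hV.rob
      · rw [hset]
        intro v hv w hw
        apply hV.noed v _ w hw
        rw [mem_union] at hv ⊢
        rcases hv with h | h
        · exact Or.inl (mem_of_mem_erase h)
        · exact Or.inr h
      · refine lt_of_le_of_lt (card_le_card ?_) hV.small
        exact union_subset_union (erase_subset _ _) (Subset.refl _)
    · exact le_of_eq (potz Fx' h5)
  · have hzL : z ∈ A \ D := mem_sdiff.2 ⟨hz, hzD⟩
    have hL1 : 3 * a ≤ ((A \ D).erase z).card := by
      rw [card_erase_of_mem hzL]; omega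
    obtain ⟨U, hU1, hU2, hU3⟩ := exists_U hE ha _ hL1
    have hUA : U ⊆ A := fun x hx => (mem_sdiff.1 (mem_of_mem_erase (hU1.1 hx))).1
    have hUz : z ∉ U := fun h => (mem_erase.1 (hU1.1 h)).1 rfl
    have hUD : ∀ x ∈ U, x ∉ D := fun x hx => (mem_sdiff.1 (mem_of_mem_erase (hU1.1 hx))).2
    have hL2 : a ≤ ((A \ D).erase z \ U).card := by
      have h2 : ((A \ D).erase z).card ≤ ((A \ D).erase z \ U).card + U.card := card_le_card_sdiff_add_card
      omega
    have hnoed2 : ∀ v ∈ D ∪ P ∪ U, ∀ w ∈ (A \ D).erase z \ U, ¬ R v w := by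
      intro v hv w hw hR
      rw [mem_sdiff] at hw
      rw [mem_union] at hv
      rcases hv with hv | hv
      · exact hV.noed v hv w (mem_of_mem_erase hw.1) hR
      · exact hw.2 (hU1.2 v hv w hw.1 hR)
    have hsmall2 : (D ∪ P ∪ U).card < a := by
      by_contra hcon
      push Not at hcon
      obtain ⟨v, hv, w, hw, hR⟩ := hE _ _ hcon hL2
      exact hnoed2 v hv w hw hR
    have hset : A.erase z \ (D ∪ U) = (A \ D).erase z \ U := by
      ext x; simp only [mem_sdiff, mem_erase, mem_union, not_or]; tauto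
    have hDU : D ∪ U ⊆ A.erase z := by
      intro x hx
      rw [mem_union] at hx
      rw [mem_erase]
      rcases hx with hx | hx
      · exact ⟨by rintro rfl; exact hzD hx, hV.DA hx⟩
      · exact ⟨by rintro rfl; exact hUz hx, hUA hx⟩
    have hDUP : D ∪ U ∪ P = D ∪ P ∪ U := by
      ext x; simp only [mem_union]; tauto
    by_cases hzt : z = t
    · -- the token is touched
      subst hzt
      obtain ⟨w, hw, hRw⟩ := exists_out hE (by omega) ha hV.rob hzL hU1 hU2
      have hw' := mem_sdiff.1 hw
      have hwz : w ≠ z := (mem_erase.1 hw'.1).1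
      have hwA : w ∈ A := (mem_sdiff.1 (mem_of_mem_erase hw'.1)).1
      have hwD : w ∉ D := (mem_sdiff.1 (mem_of_mem_erase hw'.1)).2
      obtain ⟨Fx', ρ', h1, h2, h3, h4, h5⟩ := commit he hExt hV.inv hwA hwz hRw
      refine ⟨Fx', ρ', A.erase z, D ∪ U, P, w, h1, h2, h3, ?_, ?_⟩
      · refine ⟨h4, hDU, ?_, ?_, ?_, ?_, ?_⟩
        · exact hV.PA.mono_right (erase_subset _ _)
        · rw [mem_union, not_or]; exact ⟨hwD, hw'.2⟩
        · rw [hset]; exact hU3
        · rw [hset, hDUP]; exact hnoed2
        · rw [hDUP]; exact hsmall2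
      · exact le_of_eq (potz Fx' h5)
    · by_cases htU : t ∈ U
      · -- commit a path from the token to `z` and one more step
        obtain ⟨d0, hd0⟩ := exists_rank hV.rob hU1 hU2 htU
        -- minimal rank
        have hex : ∃ d, Rk R U z d t := ⟨d0, hd0⟩
        let d := Nat.find hex
        have hd : Rk R U z d t := Nat.find_spec hex
        have hdmin : ∀ d' < d, ¬ Rk R U z d' t := fun d' hd' => Nat.find_min hex hd'
        have hRkA : ∀ u, ∀ d' ≤ d, Rk R U z d' u → u ∈ A := by
          intro u d' _ hu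
          cases hu with
          | zero => exact hz
          | succ hu _ _ => exact hUA hu
        obtain ⟨Fx1, ρ1, Q, q1, q2, q3, q4, q5, q6, q7⟩ := commitPath he hExt d hV.inv hd hdmin hRkA
        obtain ⟨w, hw, hRw⟩ := exists_out hE (by omega) ha hV.rob hzL hU1 hU2
        have hw' := mem_sdiff.1 hw
        have hwz : w ≠ z := (mem_erase.1 hw'.1).1
        have hwA : w ∈ A := (mem_sdiff.1 (mem_of_mem_erase hw'.1)).1
        have hwD : w ∉ D := (mem_sdiff.1 (mem_of_mem_erase hw'.1)).2
        have hwQ : w ∉ Q := fun h => hw'.2 (q1 h)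
        obtain ⟨Fx', ρ', h1, h2, h3, h4, h5⟩ := commit he hExt q6 (mem_sdiff.2 ⟨hwA, hwQ⟩) hwz hRw
        have hset2 : (A \ Q).erase z \ (D ∪ (U \ Q)) = (A \ D).erase z \ U := by
          ext x
          simp only [mem_sdiff, mem_erase, mem_union, not_or, not_and, not_not]
          constructor
          · rintro ⟨⟨hx1, hx2, hx3⟩, hx4, hx5⟩
            exact ⟨⟨hx1, hx2, hx4⟩, fun h => hx3 (hx5 h)⟩
          · rintro ⟨⟨hx1, hx2, hx3⟩, hx4⟩
            exact ⟨⟨hx1, hx2, fun h => hx4 (q1 h)⟩, hx3, fun h => absurd h hx4⟩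
        have hDQ : ∀ x ∈ D, x ∉ Q := fun x hx hq => hUD x (q1 hq) hx
        have hDUP2 : D ∪ (U \ Q) ∪ (P ∪ Q) = D ∪ P ∪ U := by
          ext x
          simp only [mem_union, mem_sdiff]
          constructor
          · rintro ((h | ⟨h, _⟩) | (h | h))
            · exact Or.inl (Or.inl h)
            · exact Or.inr h
            · exact Or.inl (Or.inr h)
            · exact Or.inr (q1 h)
          · rintro ((h | h) | h)
            · exact Or.inl (Or.inl h)
            · exact Or.inr (Or.inl h)
            · by_cases hq : x ∈ Q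
              · exact Or.inr (Or.inr hq)
              · exact Or.inl (Or.inr ⟨h, hq⟩)
        refine ⟨Fx', ρ', (A \ Q).erase z, D ∪ (U \ Q), P ∪ Q, w, q4.trans h1, ?_, h3, ?_, ?_⟩
        · intro x hx
          rw [h2 x (q4 hx), q5 x hx]
        · refine ⟨h4, ?_, ?_, ?_, ?_, ?_, ?_⟩
          · intro x hx
            rw [mem_union, mem_sdiff] at hx
            rw [mem_erase, mem_sdiff]
            rcases hx with hx | hx
            · exact ⟨by rintro rfl; exact hzD hx, hV.DA hx, hDQ x hx⟩
            · exact ⟨by rintro rfl; exact hUz hx.1, hUA hx.1, hx.2⟩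
          · rw [disjoint_union_left]
            refine ⟨hV.PA.mono_right ((erase_subset _ _).trans sdiff_subset), ?_⟩
            rw [Finset.disjoint_left]
            intro x hx hx'
            exact (mem_sdiff.1 (mem_of_mem_erase hx')).2 hx
          · rw [mem_union, not_or]
            exact ⟨hwD, fun h => hw'.2 (mem_sdiff.1 h).1⟩
          · rw [hset2]; exact hU3
          · rw [hset2, hDUP2]; exact hnoed2
          · rw [hDUP2]; exact hsmall2
        · -- potential
          have hPQ : Disjoint P Q := hV.PA.mono_right q2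
          have hzAQ : z ∈ A \ Q := mem_sdiff.2 ⟨hz, q3⟩
          have e1 : ∑ v ∈ A, ((unf e Fx v).card - J)
              = ∑ v ∈ A \ Q, ((unf e Fx v).card - J) + ∑ v ∈ Q, ((unf e Fx v).card - J) :=
            (sum_sdiff q2).symm
          have e2 : ∑ v ∈ Q, ((unf e Fx v).card - J) ≤ Q.card * b := by
            have : ∑ v ∈ Q, ((unf e Fx v).card - J) ≤ ∑ v ∈ Q, b := by
              apply sum_le_sum
              intro v _
              exact (Nat.sub_le _ _).trans (unf_card_le Fx v)
            rwa [sum_const, smul_eq_mul] at this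
          have e3 : ∑ v ∈ A \ Q, ((unf e Fx v).card - J)
              = ∑ v ∈ (A \ Q).erase z, ((unf e Fx v).card - J) := by
            rw [← sum_erase_add _ _ hzAQ, hzJ, Nat.sub_self, add_zero]
          have e4 : ∑ v ∈ (A \ Q).erase z, ((unf e Fx v).card - J)
              = ∑ v ∈ (A \ Q).erase z, ((unf e Fx' v).card - J) := by
            apply sum_congr rfl
            intro u hu
            rw [h5 u (ne_of_mem_erase hu), q7 u (mem_of_mem_erase hu)]
          unfold pot
          rw [card_union_of_disjoint hPQ, e1, e3, e4, add_mul]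
          omega
      · -- kill a live block that is not the token
        obtain ⟨Fx', ρ', h1, h2, h3, h4, h5⟩ := kill he hExt hV.inv hz hzt
        refine ⟨Fx', ρ', A.erase z, D ∪ U, P, t, h1, h2, h3, ?_, ?_⟩
        · refine ⟨h4, hDU, ?_, ?_, ?_, ?_, ?_⟩
          · exact hV.PA.mono_right (erase_subset _ _)
          · rw [mem_union, not_or]; exact ⟨hV.tD, htU⟩
          · rw [hset]; exact hU3
          · rw [hset, hDUP]; exact hnoed2
          · rw [hDUP]; exact hsmall2
        · exact le_of_eq (potz Fx' h5)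

end touch

end Pool.Agent.L0h92.TR
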