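import Mathlib
import Pool.Agent.L0h92.TR.Touch

set_option autoImplicit false

namespace Pool.Agent.L0h92.TR

open Finset

/-- decision trees with unlabelled leaves; `l` is the child for `false`, `r` for `true` -/
inductive DT (X : Type) : Type
  | leaf : DT X
  | node (x : X) (l r : DT X) : DT X

namespace DT

variable {X : Type}

def leaves : DT X → ℕ
  | leaf => 1
  | node _ l r => leaves l + leaves r

/-- `x` is queried on the branch followed by `α` -/
def qd : DT X → (X → Bool) → X → Prop
  | leaf, _, _ => False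
  | node y l r, α, x => x = y ∨ (α y = false ∧ qd l α x) ∨ (α y = true ∧ qd r α x)

theorem leaves_pos (T : DT X) : 1 ≤ T.leaves := by
  induction T with
  | leaf => exact le_rfl
  | node x l r ihl _ => simp only [leaves]; omega

end DT

section tree

variable {V X : Type} [Fintype V] [DecidableEq V] [Fintype X] [DecidableEq X]
variable {b : ℕ} {J a : ℕ} {e : V × Fin b → X} {R : V → V → Prop}
variable {val : V → (Fin b → Bool) → Option V} {s0 : V}

/-- the pairs of block contents excluded by the formula -/
def Bad (val : V → (Fin b → Bool) → Option V) (s0 : V) (u : V) (y : Fin b → Bool) (v : V)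
    (y' : Fin b → Bool) : Prop :=
  (val u y = some v ∧ val v y' = none) ∨
  (u ≠ v ∧ ∃ w, val u y = some w ∧ val v y' = some w) ∨
  val u y = some s0 ∨ (u = s0 ∧ val u y = none)

def Good (e : V × Fin b → X) (val : V → (Fin b → Bool) → Option V) (s0 : V) (T : DT X)
    (Fx : Finset X) (ρ : X → Bool) : Prop :=
  ∀ α : X → Bool, (∀ x ∈ Fx, α x = ρ x) → ∃ u v, Bad val s0 u (blk e α u) v (blk e α v) ∧
    (∀ i, T.qd α (e (u, i)) ∨ e (u, i) ∈ Fx) ∧ (∀ i, T.qd α (e (v, i)) ∨ e (v, i) ∈ Fx)

theorem Good.mono {T : DT X} {Fx Fx' : Finset X} {ρ ρ' : X → Bool} (h : Good e val s0 T Fx ρ)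
    (hF : Fx ⊆ Fx') (hρ : ∀ x ∈ Fx, ρ' x = ρ x) : Good e val s0 T Fx' ρ' := by
  intro α hα
  obtain ⟨u, v, h1, h2, h3⟩ := h α (fun x hx => (hα x (hF hx)).trans (hρ x hx))
  refine ⟨u, v, h1, fun i => ?_, fun i => ?_⟩
  · rcases h2 i with h | h
    · exact Or.inl h
    · exact Or.inr (hF h)
  · rcases h3 i with h | h
    · exact Or.inl h
    · exact Or.inr (hF h)

theorem Good.left {x : X} {l r : DT X} {Fx : Finset X} {ρ : X → Bool}
    (h : Good e val s0 (DT.node x l r) Fx ρ) (hx : x ∈ Fx) (hρ : ρ x = false) :
    Good e val s0 l Fx ρ := by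
  intro α hα
  have hαx : α x = false := (hα x hx).trans hρ
  obtain ⟨u, v, h1, h2, h3⟩ := h α hα
  have key : ∀ y, (DT.node x l r).qd α y ∨ y ∈ Fx → l.qd α y ∨ y ∈ Fx := by
    intro y hy
    rcases hy with hy | hy
    · simp only [DT.qd] at hy
      rcases hy with rfl | hy | hy
      · exact Or.inr hx
      · exact Or.inl hy.2
      · rw [hαx] at hy; exact absurd hy.1 (by simp)
    · exact Or.inr hy
  exact ⟨u, v, h1, fun i => key _ (h2 i), fun i => key _ (h3 i)⟩

theorem Good.right {x : X} {l r : DT X} {Fx : Finset X} {ρ : X → Bool}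
    (h : Good e val s0 (DT.node x l r) Fx ρ) (hx : x ∈ Fx) (hρ : ρ x = true) :
    Good e val s0 r Fx ρ := by
  intro α hα
  have hαx : α x = true := (hα x hx).trans hρ
  obtain ⟨u, v, h1, h2, h3⟩ := h α hα
  have key : ∀ y, (DT.node x l r).qd α y ∨ y ∈ Fx → r.qd α y ∨ y ∈ Fx := by
    intro y hy
    rcases hy with hy | hy
    · simp only [DT.qd] at hy
      rcases hy with rfl | hy | hy
      · exact Or.inr hx
      · rw [hαx] at hy; exact absurd hy.1 (by simp)
      · exact Or.inl hy.2
    · exact Or.inr hy
  exact ⟨u, v, h1, fun i => key _ (h2 i), fun i => key _ (h3 i)⟩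

theorem not_good_leaf (hJ : 1 ≤ J) {Fx : Finset X} {ρ : X → Bool} {A : Finset V} {t : V}
    (hI : Inv J e val s0 Fx ρ A t) : ¬ Good e val s0 DT.leaf Fx ρ := by
  intro h
  obtain ⟨u, v, h1, h2, h3⟩ := h ρ (fun _ _ => rfl)
  have key : ∀ u : V, (∀ i, (DT.leaf : DT X).qd ρ (e (u, i)) ∨ e (u, i) ∈ Fx) → u ∉ A := by
    intro u hu huA
    have hc := hI.act u huA
    have hne : (unf e Fx u).Nonempty := by
      rw [← Finset.card_pos]; omega
    obtain ⟨i, hi⟩ := hne
    simp only [unf, mem_filter, mem_univ, true_and] at hi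
    rcases hu i with h | h
    · exact h
    · exact hi h
  have hu := key u h2
  have hv := key v h3
  rcases h1 with ⟨h1, h1'⟩ | ⟨h1, w, h1', h1''⟩ | h1 | ⟨h1, h1'⟩
  · rcases hI.i1 u hu v h1 with h | ⟨_, h⟩
    · subst h; exact hv hI.tA
    · exact h h1'
  · exact h1 (hI.i2 u v hu hv w h1' h1'')
  · exact hI.i3 u hu h1
  · subst h1
    rcases hI.i4 with h | ⟨_, h⟩
    · subst h; exact hu hI.tA
    · exact h h1'

/-- one free query -/
theorem branch (he : Function.Injective e) {Fx : Finset X} {ρ : X → Bool} {A D P : Finset V} {t : V}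
    (hV : Valid J a e R val s0 Fx ρ A D P t) {v : V} {i : Fin b} (hv : v ∈ A)
    (hvi : e (v, i) ∉ Fx) (hJv : J < (unf e Fx v).card) (β : Bool) :
    Valid J a e R val s0 (insert (e (v, i)) Fx) (Function.update ρ (e (v, i)) β) A D P t ∧
      pot J e Fx A P = pot J e (insert (e (v, i)) Fx) A P + 1 := by
  have hunf : unf e (insert (e (v, i)) Fx) v = (unf e Fx v).erase i := by
    ext j
    simp only [unf, mem_filter, mem_univ, true_and, mem_insert, not_or, mem_erase]
    constructor
    · rintro ⟨h1, h2⟩
      exact ⟨fun h => h1 (by rw [h]), h2⟩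
    · rintro ⟨h1, h2⟩
      refine ⟨fun h => h1 ?_, h2⟩
      have := he h
      rw [Prod.mk.injEq] at this
      exact this.2
  have hunf' : ∀ u, u ≠ v → unf e (insert (e (v, i)) Fx) u = unf e Fx u := by
    intro u hu
    ext j
    simp only [unf, mem_filter, mem_univ, true_and, mem_insert, not_or]
    constructor
    · rintro ⟨_, h2⟩; exact h2
    · intro h2
      refine ⟨fun h => hu ?_, h2⟩
      have := he h
      rw [Prod.mk.injEq] at this
      exact this.1
  have hmem : i ∈ unf e Fx v := by
    simp only [unf, mem_filter, mem_univ, true_and]; exact hvi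
  have hcard : (unf e (insert (e (v, i)) Fx) v).card = (unf e Fx v).card - 1 := by
    rw [hunf, card_erase_of_mem hmem]
  have hblk : ∀ u, u ∉ A → blk e (Function.update ρ (e (v, i)) β) u = blk e ρ u := by
    intro u hu
    funext j
    simp only [blk]
    apply Function.update_of_ne
    intro h
    have := he h
    rw [Prod.mk.injEq] at this
    exact hu (this.1 ▸ hv)
  have hI := hV.inv
  refine ⟨⟨⟨?_, ?_, ?_, hI.tA, ?_, ?_, ?_, ?_⟩, hV.DA, hV.PA, hV.tD, hV.rob, hV.noed, hV.small⟩, ?_⟩
  · intro x hx; exact mem_insert_of_mem (hI.left x hx)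
  · intro u hu j; exact mem_insert_of_mem (hI.com u hu j)
  · intro u hu
    by_cases huv : u = v
    · subst huv; rw [hcard]; omega
    · rw [hunf' u huv]; exact hI.act u hu
  · intro u hu w hw
    rw [hblk u hu] at hw
    rcases hI.i1 u hu w hw with h | ⟨h, h'⟩
    · exact Or.inl h
    · right
      refine ⟨h, ?_⟩
      rw [hblk w h]; exact h'
  · intro u u' hu hu' w hw hw'
    rw [hblk u hu] at hw
    rw [hblk u' hu'] at hw'
    exact hI.i2 u u' hu hu' w hw hw'
  · intro u hu
    rw [hblk u hu]
    exact hI.i3 u hu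
  · rcases hI.i4 with h | ⟨h, h'⟩
    · exact Or.inl h
    · right
      refine ⟨h, ?_⟩
      rw [hblk s0 h]; exact h'
  · unfold pot
    rw [← sum_erase_add A (fun u => (unf e Fx u).card - J) hv,
      ← sum_erase_add A (fun u => (unf e (insert (e (v, i)) Fx) u).card - J) hv]
    have h1 : ∑ x ∈ A.erase v, ((unf e Fx x).card - J)
        = ∑ x ∈ A.erase v, ((unf e (insert (e (v, i)) Fx) x).card - J) := by
      apply sum_congr rfl
      intro u hu
      rw [hunf' u (ne_of_mem_erase hu)]
    rw [h1, hcard]
    omega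

theorem main_induction (he : Function.Injective e) (hExt : Ext J R val) (hE : Expand R a)
    (ha : 1 ≤ a) (hJ : 1 ≤ J) (T : DT X) :
    ∀ {Fx : Finset X} {ρ : X → Bool} {A D P : Finset V} {t : V},
      Valid J a e R val s0 Fx ρ A D P t → Good e val s0 T Fx ρ →
      2 ^ (pot J e Fx A P) ≤ T.leaves * 2 ^ (11 * a * b) := by
  induction T with
  | leaf =>
    intro Fx ρ A D P t hV hG
    exact absurd hG (not_good_leaf hJ hV.inv)
  | node x l r ihl ihr =>
    intro Fx ρ A D P t hV hG
    -- the forced case
    have forced : ∀ {Fx : Finset X} {ρ : X → Bool} {A D P : Finset V} {t : V},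
        Valid J a e R val s0 Fx ρ A D P t → Good e val s0 (DT.node x l r) Fx ρ → x ∈ Fx →
        2 ^ (pot J e Fx A P) ≤ (DT.node x l r).leaves * 2 ^ (11 * a * b) := by
      intro Fx ρ A D P t hV hG hx
      have hl := l.leaves_pos
      have hr := r.leaves_pos
      cases hρ : ρ x with
      | false =>
        refine (ihl hV (hG.left hx hρ)).trans ?_
        apply Nat.mul_le_mul_right
        simp only [DT.leaves]; omega
      | true =>
        refine (ihr hV (hG.right hx hρ)).trans ?_
        apply Nat.mul_le_mul_right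
        simp only [DT.leaves]; omega
    by_cases hx : x ∈ Fx
    · exact forced hV hG hx
    · by_cases hA : 10 * a ≤ A.card
      · -- `x` belongs to an active block
        have hex : ∃ p, e p = x := by
          by_contra hcon
          push Not at hcon
          exact hx (hV.inv.left x hcon)
        obtain ⟨⟨v, i⟩, rfl⟩ := hex
        have hvA : v ∈ A := by
          by_contra hcon
          exact hx (hV.inv.com v hcon i)
        rcases Nat.lt_or_ge J (unf e Fx v).card with hJv | hJv
        · -- free query
          obtain ⟨hV0, hp0⟩ := branch he hV hvA hx hJv false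
          obtain ⟨hV1, hp1⟩ := branch he hV hvA hx hJv true
          have hup : ∀ β : Bool, ∀ y ∈ Fx, Function.update ρ (e (v, i)) β y = ρ y := by
            intro β y hy
            apply Function.update_of_ne
            rintro rfl
            exact hx hy
          have hG0 := (hG.mono (subset_insert (e (v, i)) Fx) (hup false)).left (mem_insert_self _ _)
            (Function.update_self _ _ _)
          have hG1 := (hG.mono (subset_insert (e (v, i)) Fx) (hup true)).right (mem_insert_self _ _)
            (Function.update_self _ _ _)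
          have h0 := ihl hV0 hG0
          have h1 := ihr hV1 hG1
          rw [hp0, pow_succ]
          simp only [DT.leaves]
          rw [add_mul]
          omega
        · -- touched block
          have hJe : (unf e Fx v).card = J := le_antisymm hJv (hV.inv.act v hvA)
          obtain ⟨Fx', ρ', A', D', P', t', h1, h2, h3, h4, h5⟩ := touch he hExt hE ha hV hA hvA hJe
          have h6 := forced h4 (hG.mono h1 h2) (h3 i)
          exact (Nat.pow_le_pow_right (by norm_num) h5).trans h6
      · -- few active blocks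
        push Not at hA
        have h1 : pot J e Fx A P ≤ 11 * a * b := by
          unfold pot
          have h2 : ∑ v ∈ A, ((unf e Fx v).card - J) ≤ A.card * b := by
            have : ∑ v ∈ A, ((unf e Fx v).card - J) ≤ ∑ v ∈ A, b := by
              apply sum_le_sum
              intro v _
              exact (Nat.sub_le _ _).trans (unf_card_le Fx v)
            rwa [sum_const, smul_eq_mul] at this
          have h3 : P.card < a := lt_of_le_of_lt (card_le_card subset_union_right) hV.small
          have h4 : A.card * b ≤ 10 * a * b := Nat.mul_le_mul_right _ hA.le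
          have h5 : P.card * b ≤ a * b := Nat.mul_le_mul_right _ h3.le
          nlinarith
        calc 2 ^ (pot J e Fx A P) ≤ 2 ^ (11 * a * b) := Nat.pow_le_pow_right (by norm_num) h1
          _ = 1 * 2 ^ (11 * a * b) := (one_mul _).symm
          _ ≤ _ := Nat.mul_le_mul_right _ (DT.leaves_pos _)

/-- the lower bound for the game -/
theorem leaves_lower (he : Function.Injective e) (hExt : Ext J R val) (hE : Expand R a)
    (ha : 1 ≤ a) (hJ : 1 ≤ J) (hJb : J ≤ b) {U : Finset V}
    (hU : Closed R univ U) (hUa : U.card < a) (hUr : Robust R a (univ \ U)) (hs0 : s0 ∉ U)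
    (T : DT X)
    (hT : ∀ α : X → Bool, ∃ u v, Bad val s0 u (blk e α u) v (blk e α v) ∧
      (∀ i, T.qd α (e (u, i))) ∧ (∀ i, T.qd α (e (v, i)))) :
    2 ^ (Fintype.card V * (b - J)) ≤ T.leaves * 2 ^ (11 * a * b) := by
  classical
  let Fx : Finset X := univ.filter (fun x => ∀ p, e p ≠ x)
  have hunf : ∀ v, unf e Fx v = univ := by
    intro v
    ext i
    simp only [unf, Fx, mem_filter, mem_univ, true_and, iff_true, not_forall, not_not]
    exact ⟨(v, i), rfl⟩
  have hV : Valid J a e R val s0 Fx (fun _ => false) univ U ∅ s0 := by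
    refine ⟨⟨?_, ?_, ?_, mem_univ _, ?_, ?_, ?_, Or.inl rfl⟩, subset_univ _, by simp, hs0, hUr, ?_, ?_⟩
    · intro x hx; simp only [Fx, mem_filter, mem_univ, true_and]; exact hx
    · intro v hv; exact absurd (mem_univ v) hv
    · intro v _; rw [hunf v, card_univ, Fintype.card_fin]; exact hJb
    · intro v hv; exact absurd (mem_univ v) hv
    · intro v v' hv; exact absurd (mem_univ v) hv
    · intro v hv; exact absurd (mem_univ v) hv
    · intro v hv w hw hR
      rw [union_empty] at hv
      exact (mem_sdiff.1 hw).2 (hU.2 v hv w (mem_univ _) hR)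
    · rw [union_empty]; exact hUa
  have hG : Good e val s0 T Fx (fun _ => false) := by
    intro α _
    obtain ⟨u, v, h1, h2, h3⟩ := hT α
    exact ⟨u, v, h1, fun i => Or.inl (h2 i), fun i => Or.inl (h3 i)⟩
  have h := main_induction he hExt hE ha hJ T hV hG
  have hp : pot J e Fx univ (∅ : Finset V) = Fintype.card V * (b - J) := by
    unfold pot
    rw [card_empty, zero_mul, add_zero]
    rw [sum_congr rfl (fun v _ => by rw [hunf v, card_univ, Fintype.card_fin])]
    rw [sum_const, card_univ, smul_eq_mul]
  rwa [hp] at h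

end tree

end Pool.Agent.L0h92.TR
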