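import Mathlib
import Pool.Agent.L0h92.TR.Count
import Pool.Agent.L0h92.TR.Tree

set_option autoImplicit false

namespace Pool.Agent.L0h92.TR

open Finset

section formula

variable {V X : Type} [Fintype V] [DecidableEq V] [Fintype X] [DecidableEq X]
variable {b : ℕ} {J a : ℕ} {e : V × Fin b → X} {R : V → V → Prop}
variable {val : V → (Fin b → Bool) → Option V} {s0 : V}

/-- the clause excluding the content `y` of block `u` -/
def cl (e : V × Fin b → X) (u : V) (y : Fin b → Bool) : Finset (X × Bool) :=
  univ.image (fun i => (e (u, i), !(y i)))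

theorem cl_card (u : V) (y : Fin b → Bool) : (cl e u y).card ≤ b := by
  have := card_image_le (s := (univ : Finset (Fin b))) (f := fun i => (e (u, i), !(y i)))
  simpa [cl] using this

theorem cl_false (u : V) (y : Fin b → Bool) (α : X → Bool) :
    (∀ l ∈ cl e u y, α l.1 ≠ l.2) ↔ blk e α u = y := by
  constructor
  · intro h
    funext i
    have := h (e (u, i), !(y i)) (mem_image_of_mem _ (mem_univ i))
    simp only [blk]
    simpa using this
  · intro h l hl
    simp only [cl, mem_image, mem_univ, true_and] at hl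
    obtain ⟨i, rfl⟩ := hl
    have : α (e (u, i)) = y i := by rw [← h]; rfl
    simp [this]

/-- the unsatisfiability of the pointer principle -/
theorem exists_bad (e : V × Fin b → X) (val : V → (Fin b → Bool) → Option V) (s0 : V)
    (α : X → Bool) : ∃ u v, Bad val s0 u (blk e α u) v (blk e α v) := by
  classical
  by_contra hcon
  push Not at hcon
  have hb : ∀ u v, ¬ Bad val s0 u (blk e α u) v (blk e α v) := hcon
  unfold Bad at hb
  push Not at hb
  let S := {u : V // val u (blk e α u) ≠ none}
  have hex : ∀ u : S, ∃ w : V, val u.1 (blk e α u.1) = some w := fun u =>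
    Option.ne_none_iff_exists'.1 u.2
  choose g hg using hex
  have hgS : ∀ u : S, val (g u) (blk e α (g u)) ≠ none := by
    intro u
    exact (hb u.1 (g u)).1 (hg u)
  let G : S → S := fun u => ⟨g u, hgS u⟩
  have hinj : Function.Injective G := by
    intro u v huv
    have huv' : g u = g v := congrArg Subtype.val huv
    by_contra hne
    have hne' : u.1 ≠ v.1 := fun h => hne (Subtype.ext h)
    exact (hb u.1 v.1).2.1 hne' (g u) (hg u) (by rw [huv']; exact hg v)
  have hsurj : Function.Surjective G := Finite.injective_iff_surjective.1 hinj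
  have hs0 : val s0 (blk e α s0) ≠ none := (hb s0 s0).2.2.2 rfl
  obtain ⟨u, hu⟩ := hsurj ⟨s0, hs0⟩
  have hu' : g u = s0 := congrArg Subtype.val hu
  exact (hb u.1 u.1).2.2.1 (by rw [← hu']; exact hg u)

theorem formula_lower (he : Function.Injective e) (hExt : Ext J R val) (hE : Expand R a)
    (ha : 1 ≤ a) (hJ : 1 ≤ J) (hJb : J ≤ b) {U : Finset V}
    (hU : Closed R univ U) (hUa : U.card < a) (hUr : Robust R a (univ \ U)) (hs0 : s0 ∉ U) :
    ∃ F : Finset (Finset (X × Bool)),
      (∀ C ∈ F, C.card ≤ 2 * b) ∧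
      (∀ α : X → Bool, ∃ C ∈ F, ∀ l ∈ C, α l.1 ≠ l.2) ∧
      ∀ s : ℕ,
        (∀ P : Finset (X × Bool) → ℕ → Prop,
          (∀ C ∈ F, P C 1) →
          (∀ (C D : Finset (X × Bool)) (x : X) (a b : ℕ),
            P C a → P D b → (x, true) ∈ C → (x, false) ∈ D →
            P (C.erase (x, true) ∪ D.erase (x, false)) (a + b + 1)) →
          P ∅ s) →
        2 ^ (Fintype.card V * (b - J)) ≤ s * 2 ^ (11 * a * b) := by
  classical
  let F : Finset (Finset (X × Bool)) :=
    (univ.filter (fun p : (V × (Fin b → Bool)) × (V × (Fin b → Bool)) =>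
      Bad val s0 p.1.1 p.1.2 p.2.1 p.2.2)).image (fun p => cl e p.1.1 p.1.2 ∪ cl e p.2.1 p.2.2)
  refine ⟨F, ?_, ?_, ?_⟩
  · intro C hC
    simp only [F, mem_image, mem_filter, mem_univ, true_and] at hC
    obtain ⟨p, _, rfl⟩ := hC
    have h1 := cl_card (e := e) p.1.1 p.1.2
    have h2 := cl_card (e := e) p.2.1 p.2.2
    have h3 := card_union_le (cl e p.1.1 p.1.2) (cl e p.2.1 p.2.2)
    omega
  · intro α
    obtain ⟨u, v, h⟩ := exists_bad e val s0 α
    refine ⟨cl e u (blk e α u) ∪ cl e v (blk e α v), ?_, ?_⟩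
    · simp only [F, mem_image, mem_filter, mem_univ, true_and]
      exact ⟨((u, blk e α u), (v, blk e α v)), h, rfl⟩
    · intro l hl
      rw [mem_union] at hl
      rcases hl with hl | hl
      · exact (cl_false u _ α).2 rfl l hl
      · exact (cl_false v _ α).2 rfl l hl
  · intro s hs
    have h := hs (fun C s => ∃ T : DT X, T.leaves ≤ s ∧ ∀ α : X → Bool, (∀ l ∈ C, α l.1 ≠ l.2) →
      ∃ u v, Bad val s0 u (blk e α u) v (blk e α v) ∧
        (∀ i, T.qd α (e (u, i)) ∨ ∃ β, (e (u, i), β) ∈ C) ∧
        (∀ i, T.qd α (e (v, i)) ∨ ∃ β, (e (v, i), β) ∈ C)) ?_ ?_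
    · obtain ⟨T, hT1, hT2⟩ := h
      have hT3 : ∀ α : X → Bool, ∃ u v, Bad val s0 u (blk e α u) v (blk e α v) ∧
          (∀ i, T.qd α (e (u, i))) ∧ (∀ i, T.qd α (e (v, i))) := by
        intro α
        obtain ⟨u, v, h1, h2, h3⟩ := hT2 α (by simp)
        refine ⟨u, v, h1, fun i => ?_, fun i => ?_⟩
        · rcases h2 i with h | ⟨β, h⟩
          · exact h
          · simp at h
        · rcases h3 i with h | ⟨β, h⟩
          · exact h
          · simp at h
      exact (leaves_lower he hExt hE ha hJ hJb hU hUa hUr hs0 T hT3).trans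
        (Nat.mul_le_mul_right _ hT1)
    · intro C hC
      simp only [F, mem_image, mem_filter, mem_univ, true_and] at hC
      obtain ⟨⟨⟨u, y⟩, ⟨v, y'⟩⟩, hbad, rfl⟩ := hC
      refine ⟨DT.leaf, le_rfl, ?_⟩
      intro α hα
      have hu : blk e α u = y := (cl_false u y α).1 (fun l hl => hα l (mem_union_left _ hl))
      have hv : blk e α v = y' := (cl_false v y' α).1 (fun l hl => hα l (mem_union_right _ hl))
      refine ⟨u, v, ?_, fun i => Or.inr ⟨!(y i), ?_⟩, fun i => Or.inr ⟨!(y' i), ?_⟩⟩
      · rw [hu, hv]; exact hbad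
      · exact mem_union_left _ (mem_image_of_mem _ (mem_univ i))
      · exact mem_union_right _ (mem_image_of_mem _ (mem_univ i))
    · rintro C D x c d ⟨T1, hT1, hT1'⟩ ⟨T2, hT2, hT2'⟩ hxC hxD
      refine ⟨DT.node x T1 T2, ?_, ?_⟩
      · simp only [DT.leaves]; omega
      · intro α hα
        cases hαx : α x with
        | false =>
          obtain ⟨u, v, h1, h2, h3⟩ := hT1' α (by
            intro l hl
            by_cases hlx : l = (x, true)
            · subst hlx; simp [hαx]
            · exact hα l (mem_union_left _ (mem_erase.2 ⟨hlx, hl⟩)))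
          have key : ∀ z, (T1.qd α z ∨ ∃ β, (z, β) ∈ C) → ((DT.node x T1 T2).qd α z ∨
              ∃ β, (z, β) ∈ C.erase (x, true) ∪ D.erase (x, false)) := by
            intro z hz
            rcases hz with hz | ⟨β, hz⟩
            · left; simp only [DT.qd]; exact Or.inr (Or.inl ⟨hαx, hz⟩)
            · by_cases hzx : z = x
              · left; simp only [DT.qd]; exact Or.inl hzx
              · right
                refine ⟨β, mem_union_left _ (mem_erase.2 ⟨?_, hz⟩)⟩
                intro hc
                rw [Prod.mk.injEq] at hc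
                exact hzx hc.1
          exact ⟨u, v, h1, fun i => key _ (h2 i), fun i => key _ (h3 i)⟩
        | true =>
          obtain ⟨u, v, h1, h2, h3⟩ := hT2' α (by
            intro l hl
            by_cases hlx : l = (x, false)
            · subst hlx; simp [hαx]
            · exact hα l (mem_union_right _ (mem_erase.2 ⟨hlx, hl⟩)))
          have key : ∀ z, (T2.qd α z ∨ ∃ β, (z, β) ∈ D) → ((DT.node x T1 T2).qd α z ∨
              ∃ β, (z, β) ∈ C.erase (x, true) ∪ D.erase (x, false)) := by
            intro z hz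
            rcases hz with hz | ⟨β, hz⟩
            · left; simp only [DT.qd]; exact Or.inr (Or.inr ⟨hαx, hz⟩)
            · by_cases hzx : z = x
              · left; simp only [DT.qd]; exact Or.inl hzx
              · right
                refine ⟨β, mem_union_right _ (mem_erase.2 ⟨?_, hz⟩)⟩
                intro hc
                rw [Prod.mk.injEq] at hc
                exact hzx hc.1
          exact ⟨u, v, h1, fun i => key _ (h2 i), fun i => key _ (h3 i)⟩

end formula

/-- The formula for concrete parameters. -/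
theorem exists_formula (k N b J a n : ℕ) (hk : 1 ≤ k) (ha : 1 ≤ a) (hN : 10 * a ≤ N)
    (hka : N ≤ k * a) (hJ : 1 ≤ J) (hJb : J ≤ b) (hn : N * b ≤ n)
    (hJk : (k * (2*k+1) + 1) * (2*b + k * (2*k+1) + 1) ≤ 2 ^ J) :
    ∃ F : Finset (Finset (Fin n × Bool)),
      (∀ C ∈ F, C.card ≤ 2 * b) ∧
      (∀ α : Fin n → Bool, ∃ C ∈ F, ∀ l ∈ C, α l.1 ≠ l.2) ∧
      ∀ s : ℕ,
        (∀ P : Finset (Fin n × Bool) → ℕ → Prop,
          (∀ C ∈ F, P C 1) →
          (∀ (C D : Finset (Fin n × Bool)) (x : Fin n) (a b : ℕ),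
            P C a → P D b → (x, true) ∈ C → (x, false) ∈ D →
            P (C.erase (x, true) ∪ D.erase (x, false)) (a + b + 1)) →
          P ∅ s) →
        2 ^ (N * (b - J)) ≤ s * 2 ^ (11 * a * b) := by
  classical
  obtain ⟨f, hf⟩ := exists_gadget b (k * (2*k+1)) J hJk
  obtain ⟨p, hp⟩ := exists_graph N k a hk ha hka (by omega)
  let R : Fin N → Fin N → Prop := fun v w => ∃ i, p v i = w
  let val : Fin N → (Fin b → Bool) → Option (Fin N) := fun v y => (f y).map (p v)
  have hE : Expand R a := by
    intro Y Z hY hZ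
    obtain ⟨v, hv, w, hw, i, hi⟩ := hp Y Z hY hZ
    exact ⟨v, hv, w, hw, i, hi⟩
  have hExt : Ext J R val := by
    intro v U hU ρ o ho
    cases o with
    | none =>
      obtain ⟨y, hy1, hy2⟩ := hf U hU ρ none
      exact ⟨y, hy1, by simp [val, hy2]⟩
    | some w =>
      obtain ⟨i, hi⟩ := ho w rfl
      obtain ⟨y, hy1, hy2⟩ := hf U hU ρ (some i)
      exact ⟨y, hy1, by simp [val, hy2, hi]⟩
  obtain ⟨U, hU1, hU2, hU3⟩ := exists_U hE ha (univ : Finset (Fin N)) (by
    rw [card_univ, Fintype.card_fin]; omega)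
  obtain ⟨s0, hs0⟩ : ∃ s0 : Fin N, s0 ∉ U := by
    by_contra hcon
    push Not at hcon
    have : (univ : Finset (Fin N)).card ≤ U.card := card_le_card (fun x _ => hcon x)
    rw [card_univ, Fintype.card_fin] at this
    omega
  let e : Fin N × Fin b → Fin n := fun q => Fin.castLE hn (finProdFinEquiv q)
  have he : Function.Injective e := by
    intro q q' hq
    exact finProdFinEquiv.injective (Fin.castLE_injective hn hq)
  have h := formula_lower (s0 := s0) he hExt hE ha hJ hJb hU1 hU2 hU3 hs0
  rw [Fintype.card_fin] at h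
  exact h

end Pool.Agent.L0h92.TR
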