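import Mathlib
import Pool.Agent.L0h92.TR.Formula

set_option autoImplicit false

namespace Pool.Agent.L0h92.TR

open Finset

/-- The trivial case of the bound. -/
theorem trivial_case (k n : ℕ) (hk : 1 ≤ k) (hn : 1 ≤ n) (A : ℝ) (hA : A ≤ 0) :
    ∃ F : Finset (Finset (Fin n × Bool)),
      (∀ C ∈ F, C.card ≤ k) ∧
      (∀ α : Fin n → Bool, ∃ C ∈ F, ∀ l ∈ C, α l.1 ≠ l.2) ∧
      ∀ s : ℕ,
        (∀ P : Finset (Fin n × Bool) → ℕ → Prop,
          (∀ C ∈ F, P C 1) →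
          (∀ (C D : Finset (Fin n × Bool)) (x : Fin n) (a b : ℕ),
            P C a → P D b → (x, true) ∈ C → (x, false) ∈ D →
            P (C.erase (x, true) ∪ D.erase (x, false)) (a + b + 1)) →
          P ∅ s) →
        A * (n : ℝ) ≤ Real.logb 2 (s : ℝ) := by
  classical
  let x0 : Fin n := ⟨0, hn⟩
  refine ⟨{{(x0, true)}, {(x0, false)}}, ?_, ?_, ?_⟩
  · intro C hC
    rw [mem_insert, mem_singleton] at hC
    rcases hC with rfl | rfl <;> simpa using hk
  · intro α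
    cases h : α x0 with
    | false => exact ⟨{(x0, true)}, by simp, by simp [h]⟩
    | true => exact ⟨{(x0, false)}, by simp, by simp [h]⟩
  · intro s hs
    have h1 : 1 ≤ s := hs (fun _ s => 1 ≤ s) (fun _ _ => le_rfl) (fun _ _ _ a b ha hb _ _ => by omega)
    have h2 : (0 : ℝ) ≤ Real.logb 2 (s : ℝ) := Real.logb_nonneg (by norm_num) (by exact_mod_cast h1)
    have h3 : A * (n : ℝ) ≤ 0 := mul_nonpos_of_nonpos_of_nonneg hA (Nat.cast_nonneg n)
    linarith

theorem clog_bound (k : ℕ) (hk : 42 ≤ k) :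
    ((Nat.clog 2 ((k * (2*k+1) + 1) * (2*(k/2) + k * (2*k+1) + 1)) : ℕ) : ℝ) ≤ 11 * Real.log k := by
  set K := (k * (2*k+1) + 1) * (2*(k/2) + k * (2*k+1) + 1) with hK
  have hk2 : 2 * (k/2) ≤ k := Nat.mul_div_le k 2
  have h1 : k * (2*k+1) + 1 ≤ k ^ 3 := by nlinarith [Nat.mul_le_mul hk hk, Nat.mul_le_mul (Nat.mul_le_mul hk hk) hk, sq_nonneg k]
  have h2 : 2*(k/2) + k * (2*k+1) + 1 ≤ k ^ 3 := by
    have : 2*(k/2) + k * (2*k+1) + 1 ≤ k + k * (2*k+1) + 1 := by omega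
    refine this.trans ?_
    nlinarith [Nat.mul_le_mul hk hk, Nat.mul_le_mul (Nat.mul_le_mul hk hk) hk, sq_nonneg k]
  have h3 : K ≤ k ^ 6 := by
    calc K ≤ k ^ 3 * k ^ 3 := Nat.mul_le_mul h1 h2
      _ = k ^ 6 := by ring
  have hK1 : 1 < K := by
    have : 1 * 2 ≤ K := by
      rw [hK]
      apply Nat.mul_le_mul
      · omega
      · have : 1 * 1 ≤ k * (2*k+1) := Nat.mul_le_mul (by omega) (by omega)
        omega
    omega
  have h4 : 2 ^ (Nat.clog 2 K).pred < K := Nat.pow_pred_clog_lt_self (by norm_num) hK1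
  have h5 : (2:ℝ) ^ (Nat.clog 2 K).pred ≤ (k:ℝ) ^ 6 := by
    have : 2 ^ (Nat.clog 2 K).pred ≤ k ^ 6 := h4.le.trans h3
    exact_mod_cast this
  have hkpos : (0:ℝ) < k := by
    have : 0 < k := by omega
    exact_mod_cast this
  have h6 : ((Nat.clog 2 K).pred : ℝ) * Real.log 2 ≤ 6 * Real.log k := by
    have := Real.log_le_log (by positivity) h5
    rw [Real.log_pow, Real.log_pow] at this
    exact_mod_cast this
  have hpos : 0 < Nat.clog 2 K := Nat.clog_pos (by norm_num) hK1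
  have h7 : ((Nat.clog 2 K).pred : ℝ) = (Nat.clog 2 K : ℝ) - 1 := by
    rw [Nat.pred_eq_sub_one, Nat.cast_sub (by omega)]; simp
  rw [h7] at h6
  have hlog2 : (0.6931471803 : ℝ) < Real.log 2 := Real.log_two_gt_d9
  have hlog2' : Real.log 2 < 0.6931471808 := Real.log_two_lt_d9
  have hlk : 5 * Real.log 2 ≤ Real.log k := by
    have : Real.log ((2:ℝ)^5) ≤ Real.log k := by
      apply Real.log_le_log (by norm_num)
      have : ((42:ℕ):ℝ) ≤ k := by exact_mod_cast hk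
      norm_num at this ⊢
      linarith
    rw [Real.log_pow] at this
    exact_mod_cast this
  set c := (Nat.clog 2 K : ℝ) with hc
  -- c * log 2 ≤ 6 log k + log 2 ≤ 6.2 log k
  have h8 : c * Real.log 2 ≤ (6.2) * Real.log k := by nlinarith
  have h9 : 0 ≤ c := by rw [hc]; positivity
  nlinarith

end Pool.Agent.L0h92.TR
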