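import Mathlib
import Pool.Agent.L0h92.TR.Arith

set_option autoImplicit false

namespace Pool.Agent.L0h92.TR.LogOverK

open Finset Pool.Agent.L0h92.TR

/-- Near-maximal tree-like resolution lower bounds with exponent `(1 - c log k / k) n`. -/
theorem result :
    ∃ c : ℝ, 0 < c ∧ ∀ k : ℕ, 2 ≤ k → ∃ N : ℕ, ∀ n : ℕ, N ≤ n →
      ∃ F : Finset (Finset (Fin n × Bool)),
        (∀ C ∈ F, C.card ≤ k) ∧
        (∀ α : Fin n → Bool, ∃ C ∈ F, ∀ l ∈ C, α l.1 ≠ l.2) ∧
        ∀ s : ℕ,
          (∀ P : Finset (Fin n × Bool) → ℕ → Prop,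
            (∀ C ∈ F, P C 1) →
            (∀ (C D : Finset (Fin n × Bool)) (x : Fin n) (a b : ℕ),
              P C a → P D b → (x, true) ∈ C → (x, false) ∈ D →
              P (C.erase (x, true) ∪ D.erase (x, false)) (a + b + 1)) →
            P ∅ s) →
          (1 - c * Real.log (k : ℝ) / (k : ℝ)) * (n : ℝ) ≤ Real.logb 2 (s : ℝ) := by
  refine ⟨61, by norm_num, ?_⟩
  intro k hk2
  have hlog2 : (0.6931471803 : ℝ) < Real.log 2 := Real.log_two_gt_d9
  have hkpos : (0:ℝ) < k := by
    have : 0 < k := by omega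
    exact_mod_cast this
  by_cases htriv : 1 - 61 * Real.log (k : ℝ) / (k : ℝ) ≤ 0
  · exact ⟨1, fun n hn => trivial_case k n (by omega) hn _ htriv⟩
  · push Not at htriv
    have hlk : 61 * Real.log (k : ℝ) < k := by
      have : 61 * Real.log (k : ℝ) / (k : ℝ) < 1 := by linarith
      rwa [div_lt_one hkpos] at this
    have hlogk2 : Real.log 2 ≤ Real.log (k : ℝ) := by
      apply Real.log_le_log (by norm_num)
      exact_mod_cast hk2
    have hk42 : 42 ≤ k := by
      have : (42 : ℝ) < k := by nlinarith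
      exact_mod_cast this.le
    -- parameters
    set b := k / 2 with hb
    set K := (k * (2*k+1) + 1) * (2*(k/2) + k * (2*k+1) + 1) with hK
    set J := Nat.clog 2 K with hJdef
    have hJle : (J : ℝ) ≤ 11 * Real.log k := clog_bound k hk42
    have hb1 : 21 ≤ b := by omega
    have hbk : k ≤ 2 * b + 1 := by omega
    have hbk' : 2 * b ≤ k := by omega
    have hbkR : (k : ℝ) ≤ 2 * b + 1 := by exact_mod_cast hbk
    have hbkR' : 2 * (b : ℝ) ≤ k := by exact_mod_cast hbk'
    have hJb : J ≤ b := by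
      have : (J : ℝ) ≤ b := by nlinarith
      exact_mod_cast this
    have hK1 : 1 < K := by
      have : 1 * 2 ≤ K := by
        rw [hK]
        apply Nat.mul_le_mul
        · omega
        · have : 1 * 1 ≤ k * (2*k+1) := Nat.mul_le_mul (by omega) (by omega)
          omega
      omega
    have hJ1 : 1 ≤ J := Nat.clog_pos (by norm_num) hK1
    have hJK : K ≤ 2 ^ J := Nat.le_pow_clog (by norm_num) K
    refine ⟨12 * k ^ 2, ?_⟩
    intro n hn
    set N := n / b with hNdef
    set a := N / k + 1 with hadef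
    have hNb : N * b ≤ n := Nat.div_mul_le_self n b
    have hNb' : n < (N + 1) * b := by
      have := Nat.lt_div_mul_add (a := n) (b := b) (by omega)
      rw [add_mul, one_mul]; exact this
    have hN20 : 20 ≤ N := by
      by_contra hcon
      push Not at hcon
      have : (N + 1) * b ≤ 20 * b := Nat.mul_le_mul_right _ hcon
      nlinarith
    have hka : N ≤ k * a := by
      have := Nat.lt_mul_div_succ N (b := k) (by omega)
      rw [hadef]; exact this.le
    have hNk : k * (N / k) ≤ N := Nat.mul_div_le N k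
    have h10 : 10 * a ≤ N := by
      have h42 : 42 * (N / k) ≤ N := le_trans (Nat.mul_le_mul_right _ hk42) hNk
      rw [hadef]
      linarith
    obtain ⟨F, hF1, hF2, hF3⟩ := exists_formula k N b J a n (by omega) (Nat.le_add_left 1 (N / k)) h10 hka hJ1 hJb hNb
      hJK
    refine ⟨F, fun C hC => (hF1 C hC).trans hbk', hF2, ?_⟩
    intro s hs
    have h1 := hF3 s hs
    have hspos : 0 < s := by
      rcases Nat.eq_zero_or_pos s with rfl | h
      · simp at h1
      · exact h
    have hsposR : (0:ℝ) < s := by exact_mod_cast hspos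
    have h2 : ((2:ℝ) ^ (N * (b - J))) ≤ (s:ℝ) * 2 ^ (11 * a * b) := by exact_mod_cast h1
    have h3 : ((N * (b - J) : ℕ) : ℝ) ≤ Real.logb 2 (s:ℝ) + ((11 * a * b : ℕ) : ℝ) := by
      have h := Real.logb_le_logb_of_le (by norm_num : (1:ℝ) < 2) (by positivity) h2
      rw [Real.logb_mul (by positivity) (by positivity), Real.logb_pow, Real.logb_pow,
        Real.logb_self_eq_one (by norm_num), mul_one, mul_one] at h
      exact h
    have h4 : ((N * (b - J) : ℕ) : ℝ) = (N:ℝ) * b - N * J := by
      rw [Nat.cast_mul, Nat.cast_sub hJb]; ring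
    have h5 : ((11 * a * b : ℕ) : ℝ) = 11 * (((N / k : ℕ) : ℝ) + 1) * b := by
      rw [hadef]; push_cast; ring
    have hNR : (n:ℝ) - b ≤ N * b := by
      have : (n : ℝ) < (N + 1) * b := by exact_mod_cast hNb'
      linarith
    have hNR' : (N:ℝ) * b ≤ n := by exact_mod_cast hNb
    have hbpos : (0:ℝ) < b := by
      have : 0 < b := by omega
      exact_mod_cast this
    have hnR : 12 * (k:ℝ)^2 ≤ n := by exact_mod_cast hn
    have hNkR : (k:ℝ) * ((N / k : ℕ) : ℝ) ≤ N := by exact_mod_cast hNk
    -- N * J ≤ 3 n J / k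
    have e1 : (N:ℝ) * J ≤ 3 * J * (n / k) := by
      have hNn : (N:ℝ) * k ≤ 3 * n := by
        have : (k:ℝ) ≤ 3 * b := by
          have h21 : (21:ℝ) ≤ b := by exact_mod_cast hb1
          linarith
        calc (N:ℝ) * k ≤ N * (3 * b) := by
              apply mul_le_mul_of_nonneg_left this (Nat.cast_nonneg _)
          _ = 3 * (N * b) := by ring
          _ ≤ 3 * n := by linarith
      have hN' : (N:ℝ) ≤ 3 * (n / k) := by
        rw [← mul_div_assoc, le_div_iff₀ hkpos]; exact hNn
      calc (N:ℝ) * J ≤ (3 * (n / k)) * J := by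
            apply mul_le_mul_of_nonneg_right hN' (Nat.cast_nonneg _)
        _ = 3 * J * (n / k) := by ring
    -- 11 (N/k) b ≤ 11 n / k
    have e2 : ((N / k : ℕ) : ℝ) * b ≤ n / k := by
      rw [le_div_iff₀ hkpos]
      calc ((N / k : ℕ) : ℝ) * b * k = ((k:ℝ) * ((N / k : ℕ) : ℝ)) * b := by ring
        _ ≤ N * b := mul_le_mul_of_nonneg_right hNkR hbpos.le
        _ ≤ n := hNR'
    have e3 : 12 * (b:ℝ) ≤ n / k := by
      rw [le_div_iff₀ hkpos]
      nlinarith
    have e4 : (3 * (J:ℝ) + 12) * (n / k) ≤ 61 * Real.log k * (n / k) := by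
      apply mul_le_mul_of_nonneg_right _ (by positivity)
      have : 12 ≤ 28 * Real.log (k:ℝ) := by linarith
      linarith
    have e5 : (1 - 61 * Real.log (k : ℝ) / (k : ℝ)) * (n : ℝ) = n - 61 * Real.log k * (n / k) := by
      field_simp
    rw [e5]
    rw [h4, h5] at h3
    nlinarith

end Pool.Agent.L0h92.TR.LogOverK
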